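import Pool.Agent.W128.VA.Defs

/-!
# Project VA, Part IV: complete reducibility of the admissible modules
-/

set_option autoImplicit false

namespace Pool.Agent.W128.VA

open Finset

/-- The properties of the vertex operator algebra and its generators used for the modules. -/
structure Sl2VOA (A : VOA) (h e f : A.V) : Prop where
  wh : h ∈ A.gr 1
  we : e ∈ A.gr 0
  wf : f ∈ A.gr 2
  hh0 : A.Y h 0 h = 0
  hh1 : A.Y h 1 h = (2 : ℂ) • A.one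
  hh : ∀ j : ℤ, 2 ≤ j → A.Y h j h = 0
  he0 : A.Y h 0 e = (2 : ℂ) • e
  he : ∀ j : ℤ, 1 ≤ j → A.Y h j e = 0
  hf0 : A.Y h 0 f = (-2 : ℂ) • f
  hf : ∀ j : ℤ, 1 ≤ j → A.Y h j f = 0
  ef0 : A.Y e 0 f = h
  ef1 : A.Y e 1 f = A.one
  ef : ∀ j : ℤ, 2 ≤ j → A.Y e j f = 0
  Te : A.Y e (-2) A.one = A.Y h (-1) e
  Tf : A.Y f (-2) A.one = -A.Y h (-1) f
  gen : ∀ U : Submodule ℂ A.V, A.one ∈ U → (∀ (n : ℤ), ∀ v ∈ U, A.Y h n v ∈ U) →
    (∀ (n : ℤ), ∀ v ∈ U, A.Y e n v ∈ U) → (∀ (n : ℤ), ∀ v ∈ U, A.Y f n v ∈ U) → U = ⊤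

section

variable {M : Type*} [AddCommGroup M] [Module ℂ M]

/-- The relations satisfied by the modes of `h, e, f` on an admissible module. -/
structure SlRel (gr : ℤ → Submodule ℂ M) (h e f : ℤ → Module.End ℂ M) : Prop where
  gr_neg : ∀ n, n < 0 → gr n = ⊥
  gr_int : DirectSum.IsInternal gr
  hh : ∀ (m n : ℤ) (w : M), h m (h n w) - h n (h m w)
    = (if m + n = 0 then (2 * (m : ℂ)) else 0) • w
  he : ∀ (m n : ℤ) (w : M), h m (e n w) - e n (h m w) = (2 : ℂ) • e (m + n) w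
  hf : ∀ (m n : ℤ) (w : M), h m (f n w) - f n (h m w) = (-2 : ℂ) • f (m + n) w
  ef : ∀ (m n : ℤ) (w : M), e m (f n w) - f n (e m w)
    = h (m + n) w + (if m + n = 0 then (m : ℂ) else 0) • w
  trh : ∀ w, ∃ N : ℤ, ∀ n, N ≤ n → h n w = 0
  tre : ∀ w, ∃ N : ℤ, ∀ n, N ≤ n → e n w = 0
  trf : ∀ w, ∃ N : ℤ, ∀ n, N ≤ n → f n w = 0
  /-- `(T e)_n = (h_{-1} e)_n` -/
  Te : ∀ (n : ℤ) (w : M) (L : ℕ), (∀ j : ℕ, L ≤ j → e (n + j) w = 0) →
    (∀ j : ℕ, L ≤ j → h j w = 0) →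
    (-(n : ℂ)) • e (n - 1) w = ∑ j ∈ range L, (h (-1 - j) (e (n + j) w) + e (n - 1 - j) (h j w))
  /-- `(T f)_n = -(h_{-1} f)_n` -/
  Tf : ∀ (n : ℤ) (w : M) (L : ℕ), (∀ j : ℕ, L ≤ j → f (n + j) w = 0) →
    (∀ j : ℕ, L ≤ j → h j w = 0) →
    (-(n : ℂ)) • f (n - 1) w = -∑ j ∈ range L, (h (-1 - j) (f (n + j) w) + f (n - 1 - j) (h j w))
  dh : ∀ (n d : ℤ) (w : M), w ∈ gr d → h n w ∈ gr (d - n)
  de : ∀ (n d : ℤ) (w : M), w ∈ gr d → e n w ∈ gr (d - n - 1)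
  df : ∀ (n d : ℤ) (w : M), w ∈ gr d → f n w ∈ gr (d + 1 - n)

/-- The vectors killed by all `h n`, `n > 0`, with `h 0 = j`. -/
def Om (h : ℤ → Module.End ℂ M) (j : ℤ) : Submodule ℂ M where
  carrier := {w | (∀ n : ℤ, 0 < n → h n w = 0) ∧ h 0 w = (j : ℂ) • w}
  zero_mem' := by simp
  add_mem' := by
    rintro a b ⟨ha, ha'⟩ ⟨hb, hb'⟩
    exact ⟨fun n hn => by simp [ha n hn, hb n hn], by simp [ha', hb']⟩
  smul_mem' := by
    rintro c a ⟨ha, ha'⟩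
    exact ⟨fun n hn => by simp [ha n hn], by rw [map_smul, ha', smul_comm]⟩

/-- `N` is stable under all the modes of `h, e, f`. -/
def Stab (h e f : ℤ → Module.End ℂ M) (N : Submodule ℂ M) : Prop :=
  (∀ (n : ℤ), ∀ w ∈ N, h n w ∈ N) ∧ (∀ (n : ℤ), ∀ w ∈ N, e n w ∈ N) ∧
    (∀ (n : ℤ), ∀ w ∈ N, f n w ∈ N)

/-- `N` is nonzero, stable, graded, and has no stable submodules besides `0` and `N`. -/
def Good (gr : ℤ → Submodule ℂ M) (h e f : ℤ → Module.End ℂ M) (N : Submodule ℂ M) : Prop :=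
  N ≠ ⊥ ∧ Stab h e f N ∧ (N ≤ ⨆ n, N ⊓ gr n) ∧
    ∀ N' : Submodule ℂ M, N' ≤ N → Stab h e f N' → N' = ⊥ ∨ N' = N

end

/-- VA-MOD: the relations hold on every admissible module. -/
def S_MOD.{u} : Prop :=
  ∀ (A : VOA) (h e f : A.V), Sl2VOA A h e f →
    ∀ (M : Type u) [AddCommGroup M] [Module ℂ M] (X : AdmMod A M),
      SlRel X.gr (X.Y h) (X.Y e) (X.Y f)

/-- VA-CLO: a subspace stable under the modes of the generators is a submodule. -/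
def S_CLO.{u} : Prop :=
  ∀ (A : VOA) (h e f : A.V), Sl2VOA A h e f →
    ∀ (M : Type u) [AddCommGroup M] [Module ℂ M] (X : AdmMod A M) (N : Submodule ℂ M),
      Stab (X.Y h) (X.Y e) (X.Y f) N → X.IsSub N

/-- VA-KER. -/
def S_KER.{u} : Prop :=
  ∀ (M : Type u) [AddCommGroup M] [Module ℂ M] (gr : ℤ → Submodule ℂ M)
    (h e f : ℤ → Module.End ℂ M), SlRel gr h e f → ∀ w : M,
      ((∀ n, e n w = 0) → w = 0) ∧ ((∀ n, f n w = 0) → w = 0)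

/-- VA-STR: the extremal vectors. -/
def S_STR.{u} : Prop :=
  ∀ (M : Type u) [AddCommGroup M] [Module ℂ M] (gr : ℤ → Submodule ℂ M)
    (h e f : ℤ → Module.End ℂ M), SlRel gr h e f → ∀ (j : ℤ) (w : M), w ∈ Om h j →
      (∀ n : ℤ, -j - 1 < n → e n w = 0) ∧ (∀ n : ℤ, j - 1 < n → f n w = 0) ∧
      e (-j - 1) w ∈ Om h (j + 2) ∧ f (j + 1) (e (-j - 1) w) = w ∧
      f (j - 1) w ∈ Om h (j - 2) ∧ e (1 - j) (f (j - 1) w) = w

/-- VA-SPAN: the other modes are obtained from the extremal ones by the `h (-i)`. -/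
def S_SPAN.{u} : Prop :=
  ∀ (M : Type u) [AddCommGroup M] [Module ℂ M] (gr : ℤ → Submodule ℂ M)
    (h e f : ℤ → Module.End ℂ M), SlRel gr h e f → ∀ (j : ℤ) (w : M), w ∈ Om h j →
      ∀ U : Submodule ℂ M, (∀ i : ℤ, 0 < i → ∀ v ∈ U, h (-i) v ∈ U) →
        (e (-j - 1) w ∈ U → ∀ n, e n w ∈ U) ∧ (f (j - 1) w ∈ U → ∀ n, f n w ∈ U)

/-- VA-EIG: `h 0` is diagonalisable with integer eigenvalues on the vectors killed by all
`h n`, `n > 0`. -/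
def S_EIG.{u} : Prop :=
  ∀ (M : Type u) [AddCommGroup M] [Module ℂ M] (gr : ℤ → Submodule ℂ M)
    (h e f : ℤ → Module.End ℂ M), SlRel gr h e f → ∀ (d : ℤ) (w : M), w ∈ gr d →
      (∀ n : ℤ, 0 < n → h n w = 0) → w ∈ ⨆ j : ℤ, Om h j ⊓ gr d

/-- VA-HEI1: the module is generated by the homogeneous vectors killed by all `h n`, `n > 0`,
under the `h (-n)`. -/
def S_HEI1.{u} : Prop :=
  ∀ (M : Type u) [AddCommGroup M] [Module ℂ M] (gr : ℤ → Submodule ℂ M)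
    (h e f : ℤ → Module.End ℂ M), SlRel gr h e f → ∀ U : Submodule ℂ M,
      (∀ (d : ℤ) (w : M), w ∈ gr d → (∀ n : ℤ, 0 < n → h n w = 0) → w ∈ U) →
      (∀ n : ℤ, 0 < n → ∀ w ∈ U, h (-n) w ∈ U) → U = ⊤

/-- VA-HEI2: no nonzero vector killed by all `h n`, `n > 0`, is in the sum of the images of the
`h (-n)`. -/
def S_HEI2.{u} : Prop :=
  ∀ (M : Type u) [AddCommGroup M] [Module ℂ M] (gr : ℤ → Submodule ℂ M)
    (h e f : ℤ → Module.End ℂ M), SlRel gr h e f → ∀ w : M, (∀ n : ℤ, 0 < n → h n w = 0) →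
      w ∈ (⨆ n : {n : ℤ // 0 < n}, LinearMap.range (h (-(n : ℤ)))) → w = 0

/-- VA-SEQ: the string of extremal vectors through `w`. -/
def S_SEQ.{u} : Prop :=
  ∀ (M : Type u) [AddCommGroup M] [Module ℂ M] (gr : ℤ → Submodule ℂ M)
    (h e f : ℤ → Module.End ℂ M), SlRel gr h e f → ∀ (j d : ℤ) (w : M), w ∈ Om h j → w ∈ gr d →
      ∃ s : ℤ → M, s 0 = w ∧ (∀ k : ℤ, s k ∈ Om h (j + 2 * k) ∧ (∃ c : ℤ, s k ∈ gr c) ∧
        s (k + 1) = e (-(j + 2 * k) - 1) (s k) ∧ s (k - 1) = f (j + 2 * k - 1) (s k))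

/-- VA-IRR: every nonzero homogeneous eigenvector killed by all `h n`, `n > 0`, lies in a graded
irreducible submodule. -/
def S_IRR.{u} : Prop :=
  ∀ (M : Type u) [AddCommGroup M] [Module ℂ M] (gr : ℤ → Submodule ℂ M)
    (h e f : ℤ → Module.End ℂ M), SlRel gr h e f → ∀ (j d : ℤ) (w : M), w ∈ Om h j → w ∈ gr d →
      w ≠ 0 → ∃ N : Submodule ℂ M, w ∈ N ∧ Good gr h e f N

/-- VA-DEC: the decomposition. -/
def S_DEC.{u} : Prop :=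
  ∀ (M : Type u) [AddCommGroup M] [Module ℂ M] (gr : ℤ → Submodule ℂ M)
    (h e f : ℤ → Module.End ℂ M), SlRel gr h e f →
      ∃ (ι : Type u) (N : ι → Submodule ℂ M), (∀ i, Good gr h e f (N i)) ∧
        iSupIndep N ∧ ⨆ i, N i = ⊤

end Pool.Agent.W128.VA
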