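import Pool.Agent.W128.VA.Stm
import Pool.Agent.W128.VA.Stm2

/-!
# Project VA: final assembly
-/

set_option autoImplicit false

namespace Pool.Agent.W128.VA

open Finset

/-- `h`. -/
noncomputable abbrev hv : V0 := Finsupp.single 0 (MvPolynomial.X 0)

/-- `e`. -/
noncomputable abbrev ev : V0 := Finsupp.single 1 1

/-- `f`. -/
noncomputable abbrev fv : V0 := Finsupp.single (-1) 1

/-- The vertex operator algebra built on the Fock space. -/
noncomputable def mkA (F : FY) (h01 : S_OM01) (hgr : S_GR) (hvir : S_VIR) : VOA where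
  V := V0
  Y := F.Y
  one := vac1
  omega := om0
  c := -5
  gr := gr0
  gr_internal := hgr.1
  gr_fin := hgr.2.1
  gr_below := ⟨0, hgr.2.2.1⟩
  trunc := F.trunc
  vac := F.vac
  create := F.create
  create' := F.create'
  borcherds := F.bor
  vir := hvir F
  mem_gr := hgr.2.2.2 (F.Y om0 1) (h01 F).2
  Lm1 := fun u n => by
    rw [(h01 F).1 u]
    exact F.Tder u n

theorem mkA_sl2 (F : FY) (h01 : S_OM01) (hgr : S_GR) (hvir : S_VIR) (hsm : S_SMALL)
    (hope : S_OPE) (hgen : S_GEN) : Sl2VOA (mkA F h01 hgr hvir) hv ev fv := by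
  obtain ⟨s1, s2, s3, s4, s5, s6, s7, s8⟩ := hsm
  obtain ⟨⟨a1, a2, a3⟩, ⟨b1, b2⟩, ⟨c1, c2⟩, ⟨d1, d2, d3⟩, t1, t2, u1, u2⟩ := hope
  have key : ∀ u : V0, F.Y u (-2) vac1 = T0 u := by
    intro u
    have h1 := F.tcov u (-1) vac1
    have h2 : T0 vac1 = 0 := by
      have := F.tcov vac1 (-1) vac1
      have h3 := F.Tder vac1 (-1)
      have h4 : F.Y (T0 vac1) (-1) vac1 = T0 vac1 := F.create _
      rw [h3] at h4
      rw [← h4]
      simp [F.vac]
    rw [F.create, h2, map_zero, sub_zero] at h1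
    rw [h1]
    norm_num
  exact
    { wh := s3
      we := s2
      wf := s4
      hh0 := by
        change F.Y hv 0 hv = 0
        rw [F.Yh]
        exact a1
      hh1 := by
        change F.Y hv 1 hv = (2 : ℂ) • vac1
        rw [F.Yh]
        exact a2
      hh := fun j hj => by
        change F.Y hv j hv = 0
        rw [F.Yh]
        exact a3 j hj
      he0 := by
        change F.Y hv 0 ev = (2 : ℂ) • ev
        rw [F.Yh]
        exact b1
      he := fun j hj => by
        change F.Y hv j ev = 0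
        rw [F.Yh]
        exact b2 j hj
      hf0 := by
        change F.Y hv 0 fv = (-2 : ℂ) • fv
        rw [F.Yh]
        exact c1
      hf := fun j hj => by
        change F.Y hv j fv = 0
        rw [F.Yh]
        exact c2 j hj
      ef0 := by
        change F.Y ev 0 fv = hv
        rw [F.Ye]
        exact d1
      ef1 := by
        change F.Y ev 1 fv = vac1
        rw [F.Ye]
        exact d2
      ef := fun j hj => by
        change F.Y ev j fv = 0
        rw [F.Ye]
        exact d3 j hj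
      Te := by
        change F.Y ev (-2) vac1 = F.Y hv (-1) ev
        rw [key, F.Yh]
        exact t1
      Tf := by
        change F.Y fv (-2) vac1 = -F.Y hv (-1) fv
        rw [key, F.Yh]
        exact t2
      gen := fun U h1 hh he hf => by
        refine hgen U h1 (fun n v hv' => ?_) (fun n v hv' => ?_) (fun n v hv' => ?_)
        · rw [← F.Yh]
          exact hh n v hv'
        · rw [← F.Ye]
          exact he n v hv'
        · rw [← F.Yf]
          exact hf n v hv' }

/-- Rationality. -/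
theorem rational_of.{u} (A : VOA) (h e f : A.V) (hA : Sl2VOA A h e f) (hmod : S_MOD.{u})
    (hclo : S_CLO.{u}) (hdec : S_DEC.{u}) : A.Rational.{u} := by
  intro M _ _ X
  obtain ⟨ι, N, hN, hind, htop⟩ := hdec M X.gr (X.Y h) (X.Y e) (X.Y f) (hmod A h e f hA M X)
  refine ⟨ι, N, fun i => ?_, hind, htop⟩
  obtain ⟨g1, g2, g3, g4⟩ := hN i
  refine ⟨g1, hclo A h e f hA M X (N i) g2, g3, fun N' hN' hs => g4 N' hN' ?_⟩
  exact ⟨fun n w hw => hs h n w hw, fun n w hw => hs e n w hw, fun n w hw => hs f n w hw⟩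

theorem main_of.{u} (hFY : S_FY) (h01 : S_OM01) (hgr : S_GR) (hvir : S_VIR) (hsm : S_SMALL)
    (hope : S_OPE) (hgen : S_GEN) (haut : S_AUT) (hmod : S_MOD.{u})
    (hclo : S_CLO.{u}) (hdec : S_DEC.{u}) :
    ∃ A : VOA, (∀ n < 0, A.gr n = ⊥) ∧ A.Rational.{u} ∧ A.gr 1 ≠ ⊥ ∧ ∀ g ∈ A.Aut, g = 1 := by
  obtain ⟨F⟩ := hFY
  refine ⟨mkA F h01 hgr hvir, hgr.2.2.1,
    rational_of _ hv ev fv (mkA_sl2 F h01 hgr hvir hsm hope hgen) hmod hclo hdec, ?_, ?_⟩
  · intro h0
    have h1 : (hv : V0) ∈ gr0 1 := hsm.2.2.1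
    have h0' : gr0 1 = ⊥ := h0
    rw [h0', Submodule.mem_bot] at h1
    exact MvPolynomial.X_ne_zero (R := ℂ) 0 (Finsupp.single_eq_zero.1 h1)
  · rintro g ⟨hg1, hg2⟩
    exact LinearEquiv.ext fun v => haut F g hg1 hg2 v

/-- The rationality conjecture `Aut(V)` finite iff `V_1 = 0` fails. -/
theorem final_of.{u} (H : ∃ A : VOA, (∀ n < 0, A.gr n = ⊥) ∧ A.Rational.{u} ∧ A.gr 1 ≠ ⊥ ∧
      ∀ g ∈ A.Aut, g = 1) :
    ¬ ∀ A : VOA, A.Rational.{u} → (Finite A.Aut ↔ A.gr 1 = ⊥) := by
  intro h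
  obtain ⟨A, -, hr, h1, hg⟩ := H
  refine h1 ((h A hr).1 ?_)
  have : Subsingleton A.Aut := ⟨fun a b => Subtype.ext ((hg a a.2).trans (hg b b.2).symm)⟩
  infer_instance

end Pool.Agent.W128.VA
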