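import Mathlib

/-!
# Vertex operator algebras, their automorphisms and admissible modules

Everything is written in modes: `Y u n` is the mode `u_n`, the coefficient of `z ^ (-n-1)` in
`Y(u,z)`.
-/

set_option autoImplicit false

namespace Pool.Agent.W128.VAP

/-- `Y u n w = u_n w` is linear in `u` and in `w`, and `u_n w = 0` for large `n`. -/
structure Modes {V M : Type*} [AddCommGroup V] [Module ℂ V] [AddCommGroup M] [Module ℂ M]
    (Y : V → ℤ → M → M) : Prop where
  linear_left : ∀ (n : ℤ) (w : M), IsLinearMap ℂ fun u => Y u n w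
  linear_right : ∀ (u : V) (n : ℤ), IsLinearMap ℂ (Y u n)
  trunc : ∀ (u : V) (w : M), ∃ N : ℤ, ∀ n, N ≤ n → Y u n w = 0

/-- The vacuum acts as the identity: `Y(1,z) = id`. -/
def Vac {V M : Type*} [AddCommGroup M] (one : V) (Y : V → ℤ → M → M) : Prop :=
  ∀ (n : ℤ) (w : M), Y one n w = if n = -1 then w else 0

/-- The Borcherds identity
`∑ binom(m,j) (u_{k+j} v)_{m+n-j} = ∑ (-1)^j binom(k,j) (u_{m+k-j} v_{n+j} - (-1)^k v_{n+k-j} u_{m+j})`
(equivalent to the Jacobi identity; the sums over `j = 0, 1, 2, ...` are finite). -/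
def Borcherds {V M : Type*} [AddCommGroup M] [Module ℂ M] (Y : V → ℤ → V → V)
    (Z : V → ℤ → M → M) : Prop :=
  ∀ (u v : V) (w : M) (k m n : ℤ),
    ∑ᶠ j : ℕ, (Ring.choose m j : ℤ) • Z (Y u (k + j) v) (m + n - j) w
      = ∑ᶠ j : ℕ, ((-1) ^ j * (Ring.choose k j : ℤ)) •
          (Z u (m + k - j) (Z v (n + j) w) - ((-1 : ℂ) ^ k) • Z v (n + k - j) (Z u (m + j) w))

/-- Creativity: `Y(u,z) 1` has no negative powers of `z` and constant term `u`. -/
def Creative {V : Type*} [AddCommGroup V] (one : V) (Y : V → ℤ → V → V) : Prop :=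
  ∀ u : V, Y u (-1) one = u ∧ ∀ n : ℤ, 0 ≤ n → Y u n one = 0

/-- The Virasoro relations for `L(n) = omega_{n+1}` with central charge `c`. -/
def Virasoro {V : Type*} [AddCommGroup V] [Module ℂ V] (Y : V → ℤ → V → V) (omega : V)
    (c : ℂ) : Prop :=
  ∀ (m n : ℤ) (v : V),
    Y omega (m + 1) (Y omega (n + 1) v) - Y omega (n + 1) (Y omega (m + 1) v)
      = (m - n) • Y omega (m + n + 1) v
        + (if m + n = 0 then ((m : ℂ) ^ 3 - m) / 12 * c else 0) • v

/-- The `L(-1)`-derivative property: `Y(L(-1)u,z) = d/dz Y(u,z)`. -/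
def Derivative {V : Type*} [AddCommGroup V] (Y : V → ℤ → V → V) (omega : V) : Prop :=
  ∀ (u : V) (n : ℤ) (v : V), Y (Y omega 0 u) n v = (-n) • Y u (n - 1) v

/-- A vertex operator algebra over `ℂ` in the usual sense. -/
structure VOA where
  /-- the underlying vector space -/
  V : Type
  [ac : AddCommGroup V]
  [md : Module ℂ V]
  /-- `Y u n = u_n` -/
  Y : V → ℤ → V → V
  /-- the vacuum vector -/
  one : V
  /-- the conformal vector -/
  omega : V
  /-- the central charge -/
  c : ℂ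
  /-- the homogeneous pieces `V_n` -/
  gr : ℤ → Submodule ℂ V
  modes : Modes Y
  vac : Vac one Y
  creative : Creative one Y
  borcherds : Borcherds Y Y
  virasoro : Virasoro Y omega c
  derivative : Derivative Y omega
  /-- `V` is the direct sum of the `V_n` -/
  gr_internal : DirectSum.IsInternal gr
  /-- `V_n` is the eigenspace of `L(0)` for the eigenvalue `n` -/
  mem_gr : ∀ (n : ℤ) (v : V), v ∈ gr n ↔ Y omega 1 v = n • v
  gr_fin : ∀ n, Module.Finite ℂ (gr n)
  gr_below : ∃ N : ℤ, ∀ n, n < N → gr n = ⊥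

attribute [instance] VOA.ac VOA.md

/-- The automorphisms of a vertex operator algebra: the linear bijections `g` with
`g Y(u,z) g⁻¹ = Y(g u, z)` for all `u` and `g omega = omega`. -/
def VOA.Aut (A : VOA) : Set (A.V → A.V) :=
  {g | Function.Bijective g ∧ IsLinearMap ℂ g ∧
    (∀ (u : A.V) (n : ℤ) (v : A.V), g (A.Y u n v) = A.Y (g u) n (g v)) ∧ g A.omega = A.omega}

/-- An admissible module of a vertex operator algebra `A`: a weak module `M` with a grading by
the integers `d ≥ 0` such that `u_n M(d) ⊆ M(d + wt u - n - 1)`. -/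
structure AdmMod (A : VOA) (M : Type*) [AddCommGroup M] [Module ℂ M] where
  /-- `Y u n = u_n` on the module -/
  Y : A.V → ℤ → M → M
  /-- the homogeneous pieces `M(d)` -/
  gr : ℤ → Submodule ℂ M
  modes : Modes Y
  vac : Vac A.one Y
  borcherds : Borcherds A.Y Y
  gr_neg : ∀ d, d < 0 → gr d = ⊥
  gr_internal : DirectSum.IsInternal gr
  degree : ∀ (p : ℤ) (u : A.V), u ∈ A.gr p → ∀ (n d : ℤ) (w : M), w ∈ gr d →
    Y u n w ∈ gr (d + p - n - 1)

/-- `N` is a submodule of the weak module `M`. -/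
def AdmMod.IsSub {A : VOA} {M : Type*} [AddCommGroup M] [Module ℂ M] (X : AdmMod A M)
    (N : Submodule ℂ M) : Prop :=
  ∀ (u : A.V) (n : ℤ) (w : M), w ∈ N → X.Y u n w ∈ N

/-- `N` is an irreducible admissible submodule of `M`: a nonzero submodule, graded by its
intersections with the pieces of `M`, without any submodules (graded or not) besides `0` and
`N`. -/
def AdmMod.Irr {A : VOA} {M : Type*} [AddCommGroup M] [Module ℂ M] (X : AdmMod A M)
    (N : Submodule ℂ M) : Prop :=
  N ≠ ⊥ ∧ X.IsSub N ∧ (N ≤ ⨆ d, N ⊓ X.gr d) ∧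
    ∀ N' : Submodule ℂ M, N' ≤ N → X.IsSub N' → N' = ⊥ ∨ N' = N

/-- `A` is rational (good): every admissible module is a direct sum of irreducible admissible
modules. -/
def VOA.Rational.{u} (A : VOA) : Prop :=
  ∀ (M : Type u) [AddCommGroup M] [Module ℂ M] (X : AdmMod A M),
    ∃ (ι : Type u) (N : ι → Submodule ℂ M), (∀ i, X.Irr (N i)) ∧
      iSupIndep N ∧ ⨆ i, N i = ⊤

end Pool.Agent.W128.VAP
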