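import Pool.Agent.W128.VA.Defs
import Pool.Agent.W128.VA.Pub

/-!
# Conversions between the two versions of the definitions
-/

set_option autoImplicit false

namespace Pool.Agent.W128.VAConv

open Finset Pool.Agent.W128

theorem finsum_range {M : Type*} [AddCommGroup M] (f : ℕ → M) (L : ℕ)
    (h : ∀ j : ℕ, L ≤ j → f j = 0) : ∑ᶠ j : ℕ, f j = ∑ j ∈ range L, f j := by
  refine finsum_eq_sum_of_support_subset _ fun j hj => ?_
  by_contra hlt
  simp only [Finset.coe_range, Set.mem_Iio, not_lt] at hlt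
  exact hj (h j hlt)

section

variable {V M : Type*} [AddCommGroup V] [Module ℂ V] [AddCommGroup M] [Module ℂ M]

/-- The linear version of the modes. -/
noncomputable def toLin (Y : V → ℤ → M → M) (h : VAP.Modes Y) :
    V →ₗ[ℂ] (ℤ → Module.End ℂ M) where
  toFun u n := (h.linear_right u n).mk' _
  map_add' u v := by
    funext n
    ext w
    exact (h.linear_left n w).map_add u v
  map_smul' c u := by
    funext n
    ext w
    exact (h.linear_left n w).map_smul c u

theorem toLin_apply (Y : V → ℤ → M → M) (h : VAP.Modes Y) (u : V) (n : ℤ) (w : M) :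
    toLin Y h u n w = Y u n w := rfl

/-- The two forms of the Borcherds identity, from the form with finite sums. -/
theorem bor_to (Y : V →ₗ[ℂ] (ℤ → Module.End ℂ V)) (Z : V →ₗ[ℂ] (ℤ → Module.End ℂ M))
    (trY : ∀ u v, ∃ N : ℤ, ∀ n, N ≤ n → Y u n v = 0)
    (trZ : ∀ u v, ∃ N : ℤ, ∀ n, N ≤ n → Z u n v = 0)
    (h : ∀ (u v : V) (w : M) (k m n : ℤ) (L : ℕ),
      (∀ j : ℕ, L ≤ j → Y u (k + j) v = 0) → (∀ j : ℕ, L ≤ j → Z v (n + j) w = 0) →
      (∀ j : ℕ, L ≤ j → Z u (m + j) w = 0) →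
      ∑ j ∈ range L, VA.bi m j • Z (Y u (k + j) v) (m + n - j) w
        = ∑ j ∈ range L, VA.cf k j •
          (Z u (m + k - j) (Z v (n + j) w) - ((-1 : ℂ) ^ k) • Z v (n + k - j) (Z u (m + j) w))) :
    VAP.Borcherds (fun u n v => Y u n v) (fun u n w => Z u n w) := by
  intro u v w k m n
  obtain ⟨N1, h1⟩ := trY u v
  obtain ⟨N2, h2⟩ := trZ v w
  obtain ⟨N3, h3⟩ := trZ u w
  set L : ℕ := (N1 - k).toNat + (N2 - n).toNat + (N3 - m).toNat with hL
  have e1 : ∀ j : ℕ, L ≤ j → Y u (k + j) v = 0 := fun j hj => h1 _ (by omega)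
  have e2 : ∀ j : ℕ, L ≤ j → Z v (n + j) w = 0 := fun j hj => h2 _ (by omega)
  have e3 : ∀ j : ℕ, L ≤ j → Z u (m + j) w = 0 := fun j hj => h3 _ (by omega)
  have := h u v w k m n L e1 e2 e3
  rw [finsum_range _ L (fun j hj => by simp [e1 j hj]),
    finsum_range _ L (fun j hj => by simp [e2 j hj, e3 j hj])]
  simp only [VA.bi, VA.cf] at this
  simp only [← Int.cast_smul_eq_zsmul ℂ]
  push_cast
  exact this

/-- The form with finite sums. -/
theorem bor_of (Y : V → ℤ → V → V) (Z : V → ℤ → M → M) (hY : VAP.Modes Y) (hZ : VAP.Modes Z)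
    (h : VAP.Borcherds Y Z) (u v : V) (w : M) (k m n : ℤ) (L : ℕ)
    (e1 : ∀ j : ℕ, L ≤ j → Y u (k + j) v = 0) (e2 : ∀ j : ℕ, L ≤ j → Z v (n + j) w = 0)
    (e3 : ∀ j : ℕ, L ≤ j → Z u (m + j) w = 0) :
    ∑ j ∈ range L, VA.bi m j • Z (Y u (k + j) v) (m + n - j) w
      = ∑ j ∈ range L, VA.cf k j •
        (Z u (m + k - j) (Z v (n + j) w) - ((-1 : ℂ) ^ k) • Z v (n + k - j) (Z u (m + j) w)) := by
  have := h u v w k m n
  have z0 : ∀ (n : ℤ) (w : M), Z 0 n w = 0 := fun n w => (hZ.linear_left n w).map_zero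
  have z1 : ∀ (u : V) (n : ℤ), Z u n 0 = 0 := fun u n => (hZ.linear_right u n).map_zero
  rw [finsum_range _ L (fun j hj => by simp [e1 j hj, z0]),
    finsum_range _ L (fun j hj => by simp [e2 j hj, e3 j hj, z1])] at this
  simp only [← Int.cast_smul_eq_zsmul ℂ] at this
  push_cast at this
  simp only [VA.bi, VA.cf]
  exact this

end

/-- The public version of a vertex operator algebra. -/
noncomputable def conv (A : VA.VOA) : VAP.VOA where
  V := A.V
  Y u n v := A.Y u n v
  one := A.one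
  omega := A.omega
  c := A.c
  gr := A.gr
  modes :=
    { linear_left := fun n w => ⟨fun u v => by simp, fun c u => by simp⟩
      linear_right := fun u n => ⟨fun u v => by simp, fun c u => by simp⟩
      trunc := A.trunc }
  vac := A.vac
  creative := fun u => ⟨A.create u, A.create' u⟩
  borcherds := bor_to A.Y A.Y A.trunc A.trunc A.borcherds
  virasoro := fun m n v => by
    have := A.vir m n v
    rw [this]
    rw [← Int.cast_smul_eq_zsmul ℂ]
    push_cast
    rfl
  derivative := fun u n v => by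
    change A.Y (A.Y A.omega 0 u) n v = (-n) • A.Y u (n - 1) v
    rw [A.Lm1, LinearMap.smul_apply, ← Int.cast_smul_eq_zsmul ℂ]
    push_cast
    rfl
  gr_internal := A.gr_internal
  mem_gr := fun n v => by
    rw [A.mem_gr, Int.cast_smul_eq_zsmul]
  gr_fin := A.gr_fin
  gr_below := A.gr_below

/-- The modules. -/
noncomputable def mconv {A : VA.VOA} {M : Type*} [AddCommGroup M] [Module ℂ M]
    (X : VAP.AdmMod (conv A) M) : VA.AdmMod A M where
  Y := toLin (V := A.V) X.Y X.modes
  trunc := X.modes.trunc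
  vac := X.vac
  borcherds := bor_of (V := A.V) (fun u n v => A.Y u n v) X.Y (conv A).modes X.modes X.borcherds
  gr := X.gr
  gr_neg := X.gr_neg
  gr_internal := X.gr_internal
  deg := X.degree

theorem rational_conv.{u} (A : VA.VOA) (h : A.Rational.{u}) : (conv A).Rational.{u} := by
  intro M _ _ X
  obtain ⟨ι, N, hN, hi, ht⟩ := h M (mconv X)
  exact ⟨ι, N, fun i => hN i, hi, ht⟩

theorem aut_conv (A : VA.VOA) (h : ∀ g ∈ A.Aut, g = 1) : (conv A).Aut = {id} := by
  ext g
  simp only [Set.mem_singleton_iff]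
  constructor
  · rintro ⟨h1, h2, h3, h4⟩
    let g' : A.V ≃ₗ[ℂ] A.V := LinearEquiv.ofBijective (h2.mk' _) h1
    have := h g' ⟨h3, h4⟩
    funext v
    exact DFunLike.congr_fun this v
  · rintro rfl
    exact ⟨Function.bijective_id, ⟨fun _ _ => rfl, fun _ _ => rfl⟩, fun _ _ _ => rfl, rfl⟩

end Pool.Agent.W128.VAConv
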