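import Mathlib

/-!
# Project VA (MP_11a9fb_al): fields, vertex operator algebras, admissible modules

Everything is written in modes: `u_n` is the coefficient of `z ^ (-n-1)` in `Y(u,z)`.
-/

set_option autoImplicit false

namespace Pool.Agent.W128.VA

open Finset

section Fields

variable {W : Type*} [AddCommGroup W] [Module ℂ W]

/-- `(-1)^j * binom(k,j)`. -/
noncomputable def cf (k : ℤ) (j : ℕ) : ℂ := (-1) ^ j * ((Ring.choose k j : ℤ) : ℂ)

/-- `binom(m,j)` as a complex number. -/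
noncomputable def bi (m : ℤ) (j : ℕ) : ℂ := ((Ring.choose m j : ℤ) : ℂ)

/-- The `j`-th term of the coefficient extraction of `(z-w)^k z^m w^n [a(z) b(w)]`. -/
noncomputable def tm (a b : ℤ → Module.End ℂ W) (k m n : ℤ) (j : ℕ) (w : W) : W :=
  cf k j • (a (m + k - j) (b (n + j) w) - ((-1 : ℂ) ^ k) • b (n + k - j) (a (m + j) w))

/-- A field on `W`: a family of operators `a n`, `n : ℤ`, such that `a n w = 0` for large `n`
(depending on `w`). -/
@[ext] structure Fld (W : Type*) [AddCommGroup W] [Module ℂ W] where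
  /-- the modes -/
  m : ℤ → Module.End ℂ W
  tr : ∀ w, ∃ N : ℤ, ∀ n, N ≤ n → m n w = 0

theorem tm_support (a b : Fld W) (k m n : ℤ) (w : W) :
    ∃ L : ℕ, ∀ j : ℕ, L ≤ j → tm a.m b.m k m n j w = 0 := by
  obtain ⟨N1, h1⟩ := b.tr w
  obtain ⟨N2, h2⟩ := a.tr w
  refine ⟨(N1 - n).toNat + (N2 - m).toNat, fun j hj => ?_⟩
  have e1 : b.m (n + j) w = 0 := h1 _ (by omega)
  have e2 : a.m (m + j) w = 0 := h2 _ (by omega)
  simp [tm, e1, e2]

theorem tm_support_finite (a b : Fld W) (k m n : ℤ) (w : W) :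
    (Function.support fun j : ℕ => tm a.m b.m k m n j w).Finite := by
  obtain ⟨L, hL⟩ := tm_support a b k m n w
  refine (Finset.finite_toSet (Finset.range L)).subset fun j hj => ?_
  by_contra hlt
  simp only [Finset.coe_range, Set.mem_Iio, not_lt] at hlt
  exact hj (hL j hlt)

/-- The operator `Res_z Res_w (z-w)^k z^m w^n [a(z) b(w)]` (with the two expansions of
`(z-w)^k` for the two orders of the product). -/
noncomputable def R (a b : Fld W) (k m n : ℤ) : Module.End ℂ W where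
  toFun w := ∑ᶠ j : ℕ, tm a.m b.m k m n j w
  map_add' v w := by
    rw [← finsum_add_distrib (tm_support_finite a b k m n v) (tm_support_finite a b k m n w)]
    refine finsum_congr fun j => ?_
    simp only [tm, map_add]
    rw [← smul_add]
    congr 1
    rw [smul_add]
    abel
  map_smul' c w := by
    simp only [RingHom.id_apply]
    rw [smul_finsum' c (tm_support_finite a b k m n w)]
    refine finsum_congr fun j => ?_
    simp only [tm, map_smul]
    rw [smul_comm c]
    congr 1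
    rw [smul_sub, smul_comm c ((-1 : ℂ) ^ k)]

theorem R_apply (a b : Fld W) (k m n : ℤ) (w : W) (L : ℕ)
    (hL : ∀ j : ℕ, L ≤ j → tm a.m b.m k m n j w = 0) :
    R a b k m n w = ∑ j ∈ range L, tm a.m b.m k m n j w := by
  change ∑ᶠ j : ℕ, tm a.m b.m k m n j w = _
  refine finsum_eq_sum_of_support_subset _ fun j hj => ?_
  by_contra hlt
  simp only [Finset.coe_range, Set.mem_Iio, not_lt] at hlt
  exact hj (hL j hlt)

/-- Version of `R_apply` with the two truncation conditions. -/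
theorem R_apply' (a b : Fld W) (k m n : ℤ) (w : W) (L : ℕ)
    (hb : ∀ j : ℕ, L ≤ j → b.m (n + j) w = 0) (ha : ∀ j : ℕ, L ≤ j → a.m (m + j) w = 0) :
    R a b k m n w = ∑ j ∈ range L, tm a.m b.m k m n j w :=
  R_apply a b k m n w L fun j hj => by simp [tm, ha j hj, hb j hj]

/-- The `k`-th product `a_(k) b` of two fields: its `n`-th mode is
`∑ (-1)^j binom(k,j) (a_(k-j) b_(n+j) - (-1)^k b_(k+n-j) a_j)`. -/
noncomputable def prod (k : ℤ) (a b : Fld W) : Fld W where
  m n := R a b k 0 n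
  tr w := by
    obtain ⟨N1, h1⟩ := b.tr w
    obtain ⟨N2, h2⟩ := a.tr w
    -- `b_(n+k-j) a_j w` for the finitely many `j < N2`
    have h3 : ∃ N3 : ℤ, ∀ i : ℕ, (i : ℤ) < N2 → ∀ l : ℤ, N3 ≤ l → b.m l (a.m i w) = 0 := by
      choose f hf using fun i : ℕ => b.tr (a.m i w)
      refine ⟨∑ i ∈ range N2.toNat, |f i|, fun i hi l hl => hf i l ?_⟩
      have : |f i| ≤ ∑ i ∈ range N2.toNat, |f i| :=
        Finset.single_le_sum (f := fun i => |f i|) (fun _ _ => abs_nonneg _)
          (Finset.mem_range.2 (by omega))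
      exact (le_abs_self _).trans (this.trans hl)
    obtain ⟨N3, h3⟩ := h3
    refine ⟨|N1| + |N2| + |N3| + |k|, fun n hn => ?_⟩
    have hn1 : N1 ≤ n := by
      have := le_abs_self N1; have := abs_nonneg N2; have := abs_nonneg N3
      have := abs_nonneg k; omega
    have : ∀ j : ℕ, tm a.m b.m k 0 n j w = 0 := by
      intro j
      have e1 : b.m (n + j) w = 0 := h1 _ (by omega)
      by_cases hj : (j : ℤ) < N2
      · have e2 : b.m (n + k - j) (a.m j w) = 0 := h3 j hj _ (by
          have := neg_abs_le k; have := le_abs_self N2; have := le_abs_self N3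
          have := abs_nonneg N1; have := abs_nonneg N3; have := abs_nonneg N2
          omega)
        simp [tm, e1, e2]
      · have e2 : a.m j w = 0 := h2 _ (by omega)
        simp [tm, e1, e2]
    rw [R_apply a b k 0 n w 0 fun j _ => this j]
    simp

/-- Locality of order `N`: `(z-w)^N [a(z), b(w)] = 0`, in modes. -/
def Loc (a b : ℤ → Module.End ℂ W) (N : ℕ) : Prop :=
  ∀ (m n : ℤ) (w : W), ∑ j ∈ range (N + 1), ((-1 : ℂ) ^ j * (N.choose j : ℂ)) •
    (a (m + N - j) (b (n + j) w) - b (n + j) (a (m + N - j) w)) = 0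

/-- Mutual locality. -/
def MLoc (a b : ℤ → Module.End ℂ W) : Prop := ∃ N : ℕ, Loc a b N

/-- Translation covariance. -/
def TCov (T : Module.End ℂ W) (a : ℤ → Module.End ℂ W) : Prop :=
  ∀ (n : ℤ) (w : W), T (a n w) - a n (T w) = (-(n : ℂ)) • a (n - 1) w

/-- The identity field. -/
noncomputable def idF : Fld W where
  m n := if n = -1 then LinearMap.id else 0
  tr w := ⟨0, fun n hn => by simp [show n ≠ -1 by omega]⟩

end Fields

/-! ## Vertex operator algebras -/

/-- A vertex operator algebra over `ℂ` in the usual sense: `Y u n` is the mode `u_n`, and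
`L(n) = omega_(n+1)`. -/
structure VOA where
  /-- the underlying vector space -/
  V : Type
  [ac : AddCommGroup V]
  [md : Module ℂ V]
  /-- `Y u n = u_n` -/
  Y : V →ₗ[ℂ] (ℤ → Module.End ℂ V)
  /-- the vacuum vector -/
  one : V
  /-- the conformal vector -/
  omega : V
  /-- the central charge -/
  c : ℂ
  /-- the homogeneous pieces `V_n` -/
  gr : ℤ → Submodule ℂ V
  gr_internal : DirectSum.IsInternal gr
  gr_fin : ∀ n, Module.Finite ℂ (gr n)
  gr_below : ∃ N : ℤ, ∀ n, n < N → gr n = ⊥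
  trunc : ∀ u v, ∃ N : ℤ, ∀ n, N ≤ n → Y u n v = 0
  vac : ∀ (n : ℤ) (v : V), Y one n v = if n = -1 then v else 0
  create : ∀ u, Y u (-1) one = u
  create' : ∀ (u : V) (n : ℤ), 0 ≤ n → Y u n one = 0
  /-- the Borcherds identity (equivalent to the Jacobi identity); all the sums are finite -/
  borcherds : ∀ (u v w : V) (k m n : ℤ) (L : ℕ),
    (∀ j : ℕ, L ≤ j → Y u (k + j) v = 0) → (∀ j : ℕ, L ≤ j → Y v (n + j) w = 0) →
    (∀ j : ℕ, L ≤ j → Y u (m + j) w = 0) →
    ∑ j ∈ range L, bi m j • Y (Y u (k + j) v) (m + n - j) w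
      = ∑ j ∈ range L, cf k j •
          (Y u (m + k - j) (Y v (n + j) w) - ((-1 : ℂ) ^ k) • Y v (n + k - j) (Y u (m + j) w))
  /-- the Virasoro relations -/
  vir : ∀ (m n : ℤ) (v : V), Y omega (m + 1) (Y omega (n + 1) v)
      - Y omega (n + 1) (Y omega (m + 1) v)
      = ((m - n : ℤ) : ℂ) • Y omega (m + n + 1) v
        + (if m + n = 0 then (((m ^ 3 - m : ℤ) : ℂ) / 12 * c) else 0) • v
  /-- `V_n` is the eigenspace of `L(0)` for the eigenvalue `n` -/
  mem_gr : ∀ (n : ℤ) (v : V), v ∈ gr n ↔ Y omega 1 v = (n : ℂ) • v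
  /-- the `L(-1)`-derivative property -/
  Lm1 : ∀ (u : V) (n : ℤ), Y (Y omega 0 u) n = (-(n : ℂ)) • Y u (n - 1)

attribute [instance] VOA.ac VOA.md

/-- The automorphism group of a vertex operator algebra: linear bijections `g` with
`g Y(u,z) g⁻¹ = Y(g u, z)` for all `u` and `g omega = omega`. -/
def VOA.Aut (A : VOA) : Subgroup (A.V ≃ₗ[ℂ] A.V) where
  carrier := {g | (∀ (u : A.V) (n : ℤ) (v : A.V), g (A.Y u n v) = A.Y (g u) n (g v)) ∧
    g A.omega = A.omega}
  one_mem' := ⟨fun _ _ _ => rfl, rfl⟩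
  mul_mem' := by
    rintro g h ⟨hg, hg'⟩ ⟨hh, hh'⟩
    refine ⟨fun u n v => ?_, ?_⟩
    · change g (h (A.Y u n v)) = A.Y (g (h u)) n (g (h v))
      rw [hh, hg]
    · change g (h A.omega) = A.omega
      rw [hh', hg']
  inv_mem' := by
    rintro g ⟨hg, hg'⟩
    refine ⟨fun u n v => ?_, ?_⟩
    · change g.symm (A.Y u n v) = A.Y (g.symm u) n (g.symm v)
      apply g.injective
      rw [hg]
      simp
    · change g.symm A.omega = A.omega
      apply g.injective
      simp [hg']

/-- An admissible module of a vertex operator algebra `A`: a weak module `M` with a grading by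
the integers `n ≥ 0` such that `u_n M(d) ⊆ M(d + wt u - n - 1)`. -/
structure AdmMod (A : VOA) (M : Type*) [AddCommGroup M] [Module ℂ M] where
  /-- `Y u n = u_n` on the module -/
  Y : A.V →ₗ[ℂ] (ℤ → Module.End ℂ M)
  trunc : ∀ u w, ∃ N : ℤ, ∀ n, N ≤ n → Y u n w = 0
  vac : ∀ (n : ℤ) (w : M), Y A.one n w = if n = -1 then w else 0
  borcherds : ∀ (u v : A.V) (w : M) (k m n : ℤ) (L : ℕ),
    (∀ j : ℕ, L ≤ j → A.Y u (k + j) v = 0) → (∀ j : ℕ, L ≤ j → Y v (n + j) w = 0) →
    (∀ j : ℕ, L ≤ j → Y u (m + j) w = 0) →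
    ∑ j ∈ range L, bi m j • Y (A.Y u (k + j) v) (m + n - j) w
      = ∑ j ∈ range L, cf k j •
          (Y u (m + k - j) (Y v (n + j) w) - ((-1 : ℂ) ^ k) • Y v (n + k - j) (Y u (m + j) w))
  /-- the homogeneous pieces `M(n)` -/
  gr : ℤ → Submodule ℂ M
  gr_neg : ∀ n, n < 0 → gr n = ⊥
  gr_internal : DirectSum.IsInternal gr
  deg : ∀ (p : ℤ) (u : A.V), u ∈ A.gr p → ∀ (n d : ℤ) (w : M), w ∈ gr d →
    Y u n w ∈ gr (d + p - n - 1)

/-- `N` is a submodule of the weak module `M`. -/
def AdmMod.IsSub {A : VOA} {M : Type*} [AddCommGroup M] [Module ℂ M] (X : AdmMod A M)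
    (N : Submodule ℂ M) : Prop :=
  ∀ (u : A.V) (n : ℤ) (w : M), w ∈ N → X.Y u n w ∈ N

/-- `N` is an irreducible admissible submodule of `M`: a nonzero submodule, graded by its
intersections with the pieces of `M`, without any submodules (graded or not) besides `0` and
`N`. -/
def AdmMod.Irr {A : VOA} {M : Type*} [AddCommGroup M] [Module ℂ M] (X : AdmMod A M)
    (N : Submodule ℂ M) : Prop :=
  N ≠ ⊥ ∧ X.IsSub N ∧ (N ≤ ⨆ n, N ⊓ X.gr n) ∧
    ∀ N' : Submodule ℂ M, N' ≤ N → X.IsSub N' → N' = ⊥ ∨ N' = N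

/-- `A` is rational (good): every admissible module is a direct sum of irreducible admissible
modules. -/
def VOA.Rational.{u} (A : VOA) : Prop :=
  ∀ (M : Type u) [AddCommGroup M] [Module ℂ M] (X : AdmMod A M),
    ∃ (ι : Type u) (N : ι → Submodule ℂ M), (∀ i, X.Irr (N i)) ∧
      iSupIndep N ∧ ⨆ i, N i = ⊤

end Pool.Agent.W128.VA
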