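import Pool.Agent.W128.VA.Fock

/-!
# Project VA: exact statements of the parts (no proofs here)
-/

set_option autoImplicit false

namespace Pool.Agent.W128.VA

open Finset

/-! ## Part I: fields on a vector space -/

/-- VA-RREC: `(z-w)^(k+1) = (z-w)^k z - (z-w)^k w`. -/
def S_RREC : Prop :=
  ∀ (W : Type) [AddCommGroup W] [Module ℂ W] (a b : Fld W) (k m n : ℤ),
    R a b (k + 1) m n = R a b k (m + 1) n - R a b k m (n + 1)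

/-- VA-RLOC: local fields have `R = 0` for large `k`. -/
def S_RLOC : Prop :=
  ∀ (W : Type) [AddCommGroup W] [Module ℂ W] (a b : Fld W) (N : ℕ), Loc a.m b.m N →
    ∀ (k m n : ℤ), (N : ℤ) ≤ k → R a b k m n = 0

/-- VA-BI: Borcherds identity for two local fields. -/
def S_BI : Prop :=
  ∀ (W : Type) [AddCommGroup W] [Module ℂ W] (a b : Fld W), MLoc a.m b.m →
    ∀ (k m n : ℤ) (w : W) (L : ℕ),
      (∀ j : ℕ, L ≤ j → (prod (k + j) a b).m (m + n - j) w = 0) →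
      (∀ j : ℕ, L ≤ j → b.m (n + j) w = 0) → (∀ j : ℕ, L ≤ j → a.m (m + j) w = 0) →
      ∑ j ∈ range L, bi m j • (prod (k + j) a b).m (m + n - j) w
        = ∑ j ∈ range L, tm a.m b.m k m n j w

/-- VA-DONG: Dong's lemma. -/
def S_DONG : Prop :=
  ∀ (W : Type) [AddCommGroup W] [Module ℂ W] (a b c : Fld W), MLoc a.m b.m → MLoc a.m c.m →
    MLoc b.m c.m → ∀ k : ℤ, MLoc (prod k a b).m c.m

/-- VA-LIN: locality is symmetric and bilinear, and the identity is local with everything. -/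
def S_LIN : Prop :=
  ∀ (W : Type) [AddCommGroup W] [Module ℂ W] (a b c : ℤ → Module.End ℂ W),
    (MLoc a b → MLoc b a) ∧ (MLoc a c → MLoc b c → MLoc (a + b) c) ∧
    (∀ t : ℂ, MLoc a c → MLoc (t • a) c) ∧ MLoc (0 : ℤ → Module.End ℂ W) c ∧
    MLoc (idF : Fld W).m c

/-- VA-TCOV: products of translation covariant fields are translation covariant. -/
def S_TCOV : Prop :=
  ∀ (W : Type) [AddCommGroup W] [Module ℂ W] (T : Module.End ℂ W) (a b : Fld W),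
    TCov T a.m → TCov T b.m → ∀ k : ℤ, TCov T (prod k a b).m

/-- VA-CRE: products of creative fields are creative. -/
def S_CRE : Prop :=
  ∀ (W : Type) [AddCommGroup W] [Module ℂ W] (one : W) (a b : Fld W),
    (∀ n : ℤ, 0 ≤ n → a.m n one = 0) → (∀ n : ℤ, 0 ≤ n → b.m n one = 0) → ∀ k : ℤ,
    (∀ n : ℤ, 0 ≤ n → (prod k a b).m n one = 0) ∧
      (prod k a b).m (-1) one = a.m k (b.m (-1) one)

/-- VA-GOD: Goddard's uniqueness. -/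
def S_GOD : Prop :=
  ∀ (W : Type) [AddCommGroup W] [Module ℂ W] (one : W) (T : Module.End ℂ W)
    (a b : ℤ → Module.End ℂ W), T one = 0 → TCov T a →
    (∀ n : ℤ, 0 ≤ n → a n one = 0) → a (-1) one = 0 →
    (∀ n : ℤ, 0 ≤ n → b n one = 0) → MLoc a b → ∀ n : ℤ, a n (b (-1) one) = 0

/-- The Borcherds identity for a map `Y`. -/
def BIY {V : Type*} [AddCommGroup V] [Module ℂ V] (Y : V →ₗ[ℂ] (ℤ → Module.End ℂ V)) : Prop :=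
  ∀ (u v w : V) (k m n : ℤ) (L : ℕ),
    (∀ j : ℕ, L ≤ j → Y u (k + j) v = 0) → (∀ j : ℕ, L ≤ j → Y v (n + j) w = 0) →
    (∀ j : ℕ, L ≤ j → Y u (m + j) w = 0) →
    ∑ j ∈ range L, bi m j • Y (Y u (k + j) v) (m + n - j) w
      = ∑ j ∈ range L, cf k j •
          (Y u (m + k - j) (Y v (n + j) w) - ((-1 : ℂ) ^ k) • Y v (n + k - j) (Y u (m + j) w))

/-- VA-REC: the reconstruction theorem. -/
def S_REC : Prop :=
  ∀ (V : Type) [AddCommGroup V] [Module ℂ V] (one : V) (T : Module.End ℂ V) (G : Set (Fld V)),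
    T one = 0 →
    (∀ a ∈ G, TCov T a.m ∧ ∀ n : ℤ, 0 ≤ n → a.m n one = 0) →
    (∀ a ∈ G, ∀ b ∈ G, MLoc a.m b.m) →
    (∀ U : Submodule ℂ V, one ∈ U → (∀ a ∈ G, ∀ (n : ℤ), ∀ v ∈ U, a.m n v ∈ U) → U = ⊤) →
    ∃ Y : V →ₗ[ℂ] (ℤ → Module.End ℂ V),
      (∀ a ∈ G, Y (a.m (-1) one) = a.m) ∧
      (∀ u v, ∃ N : ℤ, ∀ n, N ≤ n → Y u n v = 0) ∧
      (∀ (n : ℤ) (v : V), Y one n v = if n = -1 then v else 0) ∧
      (∀ u, Y u (-1) one = u) ∧ (∀ (u : V) (n : ℤ), 0 ≤ n → Y u n one = 0) ∧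
      (∀ u, TCov T (Y u)) ∧ (∀ (u : V) (n : ℤ), Y (T u) n = (-(n : ℂ)) • Y u (n - 1)) ∧
      BIY Y

/-! ## Part II: the Fock space -/

/-- VA-PREC: identities for the power series `exp (σ ∑ x_n z^n / n)`. -/
def S_PINV : Prop :=
  ∀ (σ : ℤ) (s : ℕ),
    (∑ i ∈ range (s + 1), P σ i * P (-σ) (s - i) = if s = 0 then 1 else 0) ∧
    (∑ i ∈ range (s + 1), (i : ℂ) • (P σ i * P (-σ) (s - i))
      = if s = 0 then 0 else (σ : ℂ) • MvPolynomial.X (s - 1))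

/-- VA-PDER: derivatives of the polynomials `P`. -/
def S_PDER : Prop :=
  ∀ (σ : ℤ) (a : ℕ),
    (∀ i : ℕ, MvPolynomial.pderiv i (P σ a)
      = ((σ : ℂ) / ((i : ℂ) + 1)) • PZ σ ((a : ℤ) - (i + 1))) ∧
    D (P σ a) = ((a : ℂ) + 1) • P σ (a + 1) - (σ : ℂ) • (MvPolynomial.X 0 * P σ a)

/-- VA-TAUP: `tau` on the polynomials `P`. -/
def S_TAUP : Prop :=
  ∀ σ : ℤ, (σ = 1 ∨ σ = -1) → ∀ a : ℕ,
    (tau σ (P σ a) = Polynomial.C (P σ a)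
        - 2 * (Polynomial.X * Polynomial.C (PZ σ ((a : ℤ) - 1)))
        + Polynomial.X ^ 2 * Polynomial.C (PZ σ ((a : ℤ) - 2))) ∧
    (tau σ (P (-σ) a) = ∑ i ∈ range (a + 1),
        ((i : Polynomial R0) + 1) * (Polynomial.X ^ i * Polynomial.C (P (-σ) (a - i))))

/-- VA-EOPC: commutation rules of `eop`. -/
def S_EOPC : Prop :=
  ∀ (σ s : ℤ),
    (∀ (i : ℕ) (p : R0), eop σ s (MvPolynomial.X i * p)
      = MvPolynomial.X i * eop σ s p - (2 * (σ : ℂ)) • eop σ (s + (i + 1)) p) ∧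
    (∀ (i : ℕ) (p : R0), MvPolynomial.pderiv i (eop σ s p)
      = eop σ s (MvPolynomial.pderiv i p) + ((σ : ℂ) / ((i : ℂ) + 1)) • eop σ (s - (i + 1)) p) ∧
    eop σ s 1 = PZ σ s

/-- VA-EOPP: `eop` on the polynomials `P`. -/
def S_EOPP : Prop :=
  ∀ σ : ℤ, (σ = 1 ∨ σ = -1) → ∀ s : ℤ,
    (∀ a : ℤ, eop σ s (PZ σ a) = PZ σ s * PZ σ a - 2 * (PZ σ (s + 1) * PZ σ (a - 1))
        + PZ σ (s + 2) * PZ σ (a - 2)) ∧
    (∀ a : ℕ, eop σ s (P (-σ) a) = ∑ i ∈ range (a + 1),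
        ((i : ℂ) + 1) • (PZ σ (s + i) * P (-σ) (a - i)))

/-- VA-HH. -/
def S_HH : Prop :=
  ∀ (m n : ℤ) (v : V0), hop m (hop n v) - hop n (hop m v)
    = (if m + n = 0 then (2 * (m : ℂ)) else 0) • v

/-- VA-HE. -/
def S_HE : Prop :=
  ∀ (σ m n : ℤ) (v : V0), hop m (eV σ n v) - eV σ n (hop m v) = (2 * (σ : ℂ)) • eV σ (m + n) v

/-- VA-EE. -/
def S_EE : Prop :=
  ∀ (σ : ℤ), (σ = 1 ∨ σ = -1) → ∀ (m n : ℤ) (v : V0), eV σ m (eV σ n v) = eV σ n (eV σ m v)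

/-- VA-EF. -/
def S_EF : Prop :=
  ∀ (m n : ℤ) (v : V0), eV 1 m (eV (-1) n v) - eV (-1) n (eV 1 m v)
    = hop (m + n) v + (if m + n = 0 then (m : ℂ) else 0) • v

/-- VA-TT: translation covariance on the Fock space. -/
def S_TT : Prop := TCov T0 hop ∧ ∀ σ : ℤ, TCov T0 (eV σ)

/-- VA-TRV: truncation and the vacuum. -/
def S_TRV : Prop :=
  (∀ v : V0, ∃ N : ℤ, ∀ n, N ≤ n → hop n v = 0) ∧
  (∀ (σ : ℤ) (v : V0), ∃ N : ℤ, ∀ n, N ≤ n → eV σ n v = 0) ∧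
  (∀ n : ℤ, 0 ≤ n → hop n vac1 = 0) ∧ (∀ σ n : ℤ, 0 ≤ n → eV σ n vac1 = 0) ∧
  T0 vac1 = 0 ∧ hop (-1) vac1 = Finsupp.single 0 (MvPolynomial.X 0) ∧
  (∀ σ : ℤ, eV σ (-1) vac1 = Finsupp.single σ 1)

/-- VA-GEN: the Fock space is generated from the vacuum. -/
def S_GEN : Prop :=
  ∀ U : Submodule ℂ V0, vac1 ∈ U → (∀ (n : ℤ), ∀ v ∈ U, hop n v ∈ U) →
    (∀ (n : ℤ), ∀ v ∈ U, eV 1 n v ∈ U) → (∀ (n : ℤ), ∀ v ∈ U, eV (-1) n v ∈ U) → U = ⊤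

/-! ## Part III: the vertex operator algebra -/

/-- The vertex algebra structure on the Fock space. -/
structure FY where
  Y : V0 →ₗ[ℂ] (ℤ → Module.End ℂ V0)
  Yh : Y (Finsupp.single 0 (MvPolynomial.X 0)) = hop
  Ye : Y (Finsupp.single 1 1) = eV 1
  Yf : Y (Finsupp.single (-1) 1) = eV (-1)
  trunc : ∀ u v, ∃ N : ℤ, ∀ n, N ≤ n → Y u n v = 0
  vac : ∀ (n : ℤ) (v : V0), Y vac1 n v = if n = -1 then v else 0
  create : ∀ u, Y u (-1) vac1 = u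
  create' : ∀ (u : V0) (n : ℤ), 0 ≤ n → Y u n vac1 = 0
  tcov : ∀ u, TCov T0 (Y u)
  Tder : ∀ (u : V0) (n : ℤ), Y (T0 u) n = (-(n : ℂ)) • Y u (n - 1)
  bor : BIY Y

/-- VA-FY: the vertex algebra structure exists (from Parts I and II). -/
def S_FY : Prop := Nonempty FY

/-- VA-OM01: the modes `omega_0 = L(-1)` and `omega_1 = L(0)`. -/
def S_OM01 : Prop :=
  ∀ F : FY, (∀ v, F.Y om0 0 v = T0 v) ∧
    ∀ (k : ℤ) (d : ℕ →₀ ℕ), F.Y om0 1 (Finsupp.single k (MvPolynomial.monomial d 1))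
      = (wt0 k d : ℂ) • Finsupp.single k (MvPolynomial.monomial d 1)

/-- VA-OM23: `L(1) omega = 0`, `L(2) omega = c/2` with `c = -5`. -/
def S_OM23 : Prop :=
  ∀ F : FY, F.Y om0 2 om0 = 0 ∧ F.Y om0 3 om0 = (-5 / 2 : ℂ) • vac1

/-- VA-GR: the grading. -/
def S_GR : Prop :=
  DirectSum.IsInternal gr0 ∧ (∀ n, Module.Finite ℂ (gr0 n)) ∧ (∀ n, n < 0 → gr0 n = ⊥) ∧
  (∀ L : Module.End ℂ V0, (∀ (k : ℤ) (d : ℕ →₀ ℕ),
      L (Finsupp.single k (MvPolynomial.monomial d 1))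
        = (wt0 k d : ℂ) • Finsupp.single k (MvPolynomial.monomial d 1)) →
    ∀ (n : ℤ) (v : V0), v ∈ gr0 n ↔ L v = (n : ℂ) • v)

/-- VA-SMALL: the small homogeneous pieces. -/
def S_SMALL : Prop :=
  vac1 ∈ gr0 0 ∧ Finsupp.single (1 : ℤ) (1 : R0) ∈ gr0 0 ∧
  Finsupp.single (0 : ℤ) (MvPolynomial.X 0 : R0) ∈ gr0 1 ∧
  Finsupp.single (-1 : ℤ) (1 : R0) ∈ gr0 2 ∧ om0 ∈ gr0 2 ∧
  (∀ v ∈ gr0 0, ∃ a b : ℂ, v = a • vac1 + b • Finsupp.single (1 : ℤ) (1 : R0)) ∧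
  (∀ v ∈ gr0 1, ∃ a b : ℂ, v = a • Finsupp.single (0 : ℤ) (MvPolynomial.X 0 : R0)
      + b • Finsupp.single (1 : ℤ) (MvPolynomial.X 0 : R0)) ∧
  (∀ v ∈ gr0 2, hop 0 v = (-2 : ℂ) • v → ∃ a : ℂ, v = a • Finsupp.single (-1 : ℤ) (1 : R0))

/-- VA-VIR: the Virasoro relations. -/
def S_VIR : Prop :=
  ∀ F : FY, ∀ (m n : ℤ) (v : V0), F.Y om0 (m + 1) (F.Y om0 (n + 1) v)
      - F.Y om0 (n + 1) (F.Y om0 (m + 1) v)
      = ((m - n : ℤ) : ℂ) • F.Y om0 (m + n + 1) v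
        + (if m + n = 0 then (((m ^ 3 - m : ℤ) : ℂ) / 12 * (-5)) else 0) • v

/-- VA-AUT: the only automorphism fixing `om0` is the identity. -/
def S_AUT : Prop :=
  ∀ (F : FY) (g : V0 ≃ₗ[ℂ] V0), (∀ (u : V0) (n : ℤ) (v : V0), g (F.Y u n v) = F.Y (g u) n (g v)) →
    g om0 = om0 → ∀ v, g v = v

/-- VA-OPE: the products of the generators. -/
def S_OPE : Prop :=
  let h : V0 := Finsupp.single 0 (MvPolynomial.X 0)
  let e : V0 := Finsupp.single 1 1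
  let f : V0 := Finsupp.single (-1) 1
  (hop 0 h = 0 ∧ hop 1 h = (2 : ℂ) • vac1 ∧ ∀ j : ℤ, 2 ≤ j → hop j h = 0) ∧
  (hop 0 e = (2 : ℂ) • e ∧ ∀ j : ℤ, 1 ≤ j → hop j e = 0) ∧
  (hop 0 f = (-2 : ℂ) • f ∧ ∀ j : ℤ, 1 ≤ j → hop j f = 0) ∧
  (eV 1 0 f = h ∧ eV 1 1 f = vac1 ∧ ∀ j : ℤ, 2 ≤ j → eV 1 j f = 0) ∧
  (T0 e = hop (-1) e) ∧ (T0 f = -hop (-1) f) ∧ (eV 1 (-1) e = 0) ∧ (eV 1 0 h = (-2 : ℂ) • e)

end Pool.Agent.W128.VA
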