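import Pool.Agent.W128.VA.Asm
import Pool.Agent.W366.VA.RRec
import Pool.Agent.W577.VA.Rloc
import Pool.Agent.W89.VA.BI
import Pool.Agent.W85.VA.Dong
import Pool.Agent.W35.VA.Lin
import Pool.Agent.W143.VA.TCov
import Pool.Agent.W933.VA.Cre
import Pool.Agent.W959.VA.REC
import Pool.Agent.W61.VA.PINV
import Pool.Agent.W977.VA.PDer
import Pool.Agent.W371.VA.EOPC
import Pool.Agent.W918.VA.Eopp
import Pool.Agent.W705.VA.HH
import Pool.Agent.W925.VA.HE
import Pool.Agent.W962.VA.EE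
import Pool.Agent.W371.VA.TT
import Pool.Agent.W28.VA.TRV
import Pool.Agent.W410.VA.GEN
import Pool.Agent.W398.VA.FYn
import Pool.Agent.W699.VA.OM01
import Pool.Agent.W701.VA.OM23
import Pool.Agent.W371.VA.GR
import Pool.Agent.W922.VA.SMALL
import Pool.Agent.W828.VA.Vir
import Pool.Agent.W585.VA.Ope
import Pool.Agent.W418.VA.Aut
import Pool.Agent.W735.VA.Mod
import Pool.Agent.W14.VA.Clo
import Pool.Agent.W154.VA.Ker
import Pool.Agent.W692.VA.Str
import Pool.Agent.W73.VA.Span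
import Pool.Agent.W496.VA.EIG
import Pool.Agent.W62.VAHei1
import Pool.Agent.W392.VA.Hei2
import Pool.Agent.W361.VA.Seq
import Pool.Agent.W494.VA.IRR
import Pool.Agent.W878.VA.Dec

/-!
# Project VA: all parts together
-/

set_option autoImplicit false

namespace Pool.Agent.W128.VA

theorem p_RREC : S_RREC := Pool.Agent.W366.VA.RRec.main
theorem p_RLOC : S_RLOC := Pool.Agent.W577.VA.main p_RREC
theorem p_BI : S_BI := Pool.Agent.W89.VA.BI.main p_RREC p_RLOC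
theorem p_DONG : S_DONG := Pool.Agent.W85.VA.Dong.main p_RREC p_RLOC
theorem p_REC : S_REC := Pool.Agent.W959.VA.REC.main p_BI p_DONG Pool.Agent.W35.VA.Lin.main
  Pool.Agent.W143.VATCov.main Pool.Agent.W933.VA.Cre.main.1 Pool.Agent.W933.VA.Cre.main.2
theorem p_EOPC : S_EOPC := Pool.Agent.W371.VA.EOPC.main Pool.Agent.W977.VA.PDer.main
theorem p_HE : S_HE := Pool.Agent.W925.VA.HE.main p_EOPC
theorem p_TT : S_TT := Pool.Agent.W371.VA.TT.main Pool.Agent.W977.VA.PDer.main p_EOPC p_HE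
theorem p_GEN : S_GEN := Pool.Agent.W410.VA.GEN.main p_EOPC
theorem p_OM23 : S_OM23 := Pool.Agent.W701.VA.OM23.main p_EOPC
theorem p_SMALL : S_SMALL := Pool.Agent.W922.VA.main Pool.Agent.W371.VA.GR.main
theorem p_VIR : S_VIR := Pool.Agent.W828.VA.main Pool.Agent.W699.VA.OM01.main p_OM23
  Pool.Agent.W371.VA.GR.main p_SMALL
theorem p_OPE : S_OPE := Pool.Agent.W585.VA.Ope.main p_EOPC
theorem p_AUT : S_AUT := Pool.Agent.W418.VA.Aut.main Pool.Agent.W699.VA.OM01.main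
  Pool.Agent.W371.VA.GR.main p_SMALL p_OPE p_GEN
theorem p_SPAN.{u} : S_SPAN.{u} := Pool.Agent.W73.VA.main Pool.Agent.W692.VA.Str.main
theorem p_SEQ.{u} : S_SEQ.{u} := Pool.Agent.W361.VA.Seq.main Pool.Agent.W692.VA.Str.main
theorem p_IRR.{u} : S_IRR.{u} := Pool.Agent.W494.VA.IRR.main Pool.Agent.W692.VA.Str.main
  p_SPAN Pool.Agent.W392.VA.Hei2.main p_SEQ
theorem p_DEC.{u} : S_DEC.{u} := Pool.Agent.W878.VA.main Pool.Agent.W496.VA.EIG.main
  Pool.Agent.W62.VAHei1.main p_IRR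

theorem final.{u} (hTAUP : S_TAUP) (hEF : S_EOPP → S_EOPC → S_PINV → S_HE → S_HH → S_EF) :
    ∃ A : VOA, (∀ n < 0, A.gr n = ⊥) ∧ A.Rational.{u} ∧ A.gr 1 ≠ ⊥ ∧ ∀ g ∈ A.Aut, g = 1 := by
  have hEOPP : S_EOPP := Pool.Agent.W918.VA.Eopp.main hTAUP
  have hEE : S_EE := Pool.Agent.W962.VA.EE.main hEOPP p_EOPC p_HE
  have hHH : S_HH := Pool.Agent.W705.VA.main
  have hEF' : S_EF := hEF hEOPP p_EOPC Pool.Agent.W61.VA.PINV.main p_HE hHH
  exact main_of
    (Pool.Agent.W398.VA.FYn.main p_REC hHH p_HE hEE hEF' p_TT Pool.Agent.W28.VA.TRV.main p_GEN)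
    Pool.Agent.W699.VA.OM01.main Pool.Agent.W371.VA.GR.main p_VIR p_SMALL p_OPE p_GEN p_AUT
    Pool.Agent.W735.VAMod.main Pool.Agent.W14.VA.Clo.main p_DEC

end Pool.Agent.W128.VA
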