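import Pool.Agent.W128.VA.Defs

/-!
# Project VA: the Fock space `V0 = ⨁_{k ∈ ℤ} ℂ[x_1, x_2, ...] e^k`

`MvPolynomial ℕ ℂ`, the variable `X i` is `x_{i+1}`.
-/

set_option autoImplicit false

namespace Pool.Agent.W128.VA

open Finset

/-- The polynomial ring `ℂ[x_1, x_2, ...]`, with `X i = x_{i+1}`. -/
abbrev R0 := MvPolynomial ℕ ℂ

/-- The coefficients of `exp (σ ∑ x_n z^n / n)`:
`P σ 0 = 1`, `(a+1) P σ (a+1) = σ ∑_{i ≤ a} x_{i+1} P σ (a-i)`. -/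
noncomputable def P (σ : ℤ) : ℕ → R0
  | 0 => 1
  | (a + 1) => MvPolynomial.C ((σ : ℂ) / ((a : ℂ) + 1)) *
      ∑ i : Fin (a + 1), MvPolynomial.X (i : ℕ) * P σ (a - i)
  decreasing_by omega

/-- `P σ s` for integers `s`, zero for `s < 0`. -/
noncomputable def PZ (σ s : ℤ) : R0 := if 0 ≤ s then P σ s.toNat else 0

/-- The algebra homomorphism `x_n ↦ x_n - 2 σ U^n`, `U = z⁻¹`. -/
noncomputable def tau (σ : ℤ) : R0 →ₐ[ℂ] Polynomial R0 :=
  MvPolynomial.aeval fun i : ℕ =>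
    Polynomial.C (MvPolynomial.X i) - (2 * (σ : ℂ)) • (Polynomial.X : Polynomial R0) ^ (i + 1)

/-- The coefficient of `z^s` in `exp (σ ∑ x_n z^n / n) * tau σ p (z⁻¹)`. -/
noncomputable def eop (σ s : ℤ) : R0 →ₗ[ℂ] R0 :=
  (Polynomial.lsum (R := ℂ) fun i : ℕ => LinearMap.mulLeft ℂ (PZ σ (s + i))) ∘ₗ
    (tau σ).toLinearMap

/-- The derivation `x_n ↦ n x_{n+1}`. -/
noncomputable def D : R0 →ₗ[ℂ] R0 :=
  (MvPolynomial.mkDerivation ℂ fun i : ℕ =>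
    (((i : ℂ) + 1) • (MvPolynomial.X (i + 1) : R0)) : Derivation ℂ R0 R0)

/-- The Fock space: `Finsupp.single k p` is `p e^k`. -/
abbrev V0 := ℤ →₀ R0

/-- The vacuum. -/
noncomputable def vac1 : V0 := Finsupp.single 0 1

/-- The action of `h_m` on the polynomials of charge `k`. -/
noncomputable def hR (m k : ℤ) : R0 →ₗ[ℂ] R0 :=
  if m < 0 then LinearMap.mulLeft ℂ (MvPolynomial.X (-m - 1).toNat)
  else if m = 0 then (2 * (k : ℂ)) • LinearMap.id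
  else (2 * (m : ℂ)) • (MvPolynomial.pderiv (m - 1).toNat : Derivation ℂ R0 R0).toLinearMap

/-- The Heisenberg modes: `h_{-n} = x_n`, `h_n = 2 n ∂/∂x_n` for `n > 0`, `h_0 = 2 k`. -/
noncomputable def hop (m : ℤ) : Module.End ℂ V0 :=
  Finsupp.lsum ℂ fun k : ℤ => (Finsupp.lsingle k : R0 →ₗ[ℂ] V0) ∘ₗ hR m k

/-- The modes of `e^σ`. -/
noncomputable def eV (σ n : ℤ) : Module.End ℂ V0 :=
  Finsupp.lsum ℂ fun k : ℤ =>
    (Finsupp.lsingle (k + σ) : R0 →ₗ[ℂ] V0) ∘ₗ eop σ (-n - 1 - 2 * σ * k)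

/-- The translation operator. -/
noncomputable def T0 : Module.End ℂ V0 :=
  Finsupp.lsum ℂ fun k : ℤ =>
    (Finsupp.lsingle k : R0 →ₗ[ℂ] V0) ∘ₗ (D + (k : ℂ) • LinearMap.mulLeft ℂ (MvPolynomial.X 0))

@[simp] theorem hop_single (m k : ℤ) (p : R0) :
    hop m (Finsupp.single k p) = Finsupp.single k (hR m k p) := by
  simp [hop]

@[simp] theorem eV_single (σ n k : ℤ) (p : R0) :
    eV σ n (Finsupp.single k p) = Finsupp.single (k + σ) (eop σ (-n - 1 - 2 * σ * k) p) := by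
  simp [eV]

@[simp] theorem T0_single (k : ℤ) (p : R0) :
    T0 (Finsupp.single k p)
      = Finsupp.single k (D p + (k : ℂ) • (MvPolynomial.X 0 * p)) := by
  simp [T0]

theorem eop_apply (σ s : ℤ) (p : R0) :
    eop σ s p = (tau σ p).sum fun i c => PZ σ (s + i) * c := by
  simp [eop, Polynomial.lsum_apply]

@[simp] theorem tau_X (σ : ℤ) (i : ℕ) : tau σ (MvPolynomial.X i) =
    Polynomial.C (MvPolynomial.X i) - (2 * (σ : ℂ)) • (Polynomial.X : Polynomial R0) ^ (i + 1) := by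
  simp [tau]

@[simp] theorem D_X (i : ℕ) : D (MvPolynomial.X i) = ((i : ℂ) + 1) • MvPolynomial.X (i + 1) := by
  simp [D]

theorem D_mul (p q : R0) : D (p * q) = p * D q + q * D p := by
  simp [D, smul_eq_mul]

theorem P_zero (σ : ℤ) : P σ 0 = 1 := by rw [P]

theorem P_succ (σ : ℤ) (a : ℕ) : P σ (a + 1) = MvPolynomial.C ((σ : ℂ) / ((a : ℂ) + 1)) *
      ∑ i : Fin (a + 1), MvPolynomial.X (i : ℕ) * P σ (a - i) := by rw [P]

/-- The recursion in the form `(a+1) P (a+1) = σ ∑ x_{i+1} P (a-i)`. -/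
theorem P_rec (σ : ℤ) (a : ℕ) : ((a : ℂ) + 1) • P σ (a + 1) = (σ : ℂ) •
      ∑ i ∈ range (a + 1), MvPolynomial.X i * P σ (a - i) := by
  have h : ((a : ℂ) + 1) ≠ 0 := by exact_mod_cast Nat.succ_ne_zero a
  rw [P_succ, MvPolynomial.C_mul', smul_smul, mul_div_cancel₀ _ h]
  congr 1
  exact Finset.sum_range (fun i => MvPolynomial.X i * P σ (a - i)) |>.symm

/-- The weight of the basis vector `x^d e^k`. -/
def wt0 (k : ℤ) (d : ℕ →₀ ℕ) : ℤ := k ^ 2 - k + d.sum fun i a => ((i : ℤ) + 1) * a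

/-- The homogeneous piece of weight `n`. -/
noncomputable def gr0 (n : ℤ) : Submodule ℂ V0 :=
  Submodule.span ℂ {v | ∃ (k : ℤ) (d : ℕ →₀ ℕ), wt0 k d = n ∧
    v = Finsupp.single k (MvPolynomial.monomial d 1)}

/-- The conformal vector `x_1^2/4 + x_2/2 + (x_2 + x_1^2) e^1`. -/
noncomputable def om0 : V0 :=
  Finsupp.single 0 ((1 / 4 : ℂ) • MvPolynomial.X 0 ^ 2 + (1 / 2 : ℂ) • MvPolynomial.X 1)
    + Finsupp.single 1 (MvPolynomial.X 1 + MvPolynomial.X 0 ^ 2)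

end Pool.Agent.W128.VA
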